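import Pool.Agent.Run7.h332.WP.Basis3
import Pool.Agent.Run7.h332.WP.Lower

/-!
# MP_3e5b54_nt: four positive cubes and one randomly perturbed cube

Let `16/81 < δ ≤ 2/3` and let `ξ n` be independent random nonnegative integers such that each integer
`j ≤ n ^ (3 δ)` is the value of `ξ n` with probability at least `c / n ^ (3 δ)`, for instance uniform on the
integers `≤ n ^ (3 δ)`. Here `3 δ` may be any number above `16/27 = 0.5925...`, so that the *perturbed cube*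
`n ^ 3 + ξ n` may be taken to differ from `n ^ 3` by less than `n ^ 0.5926`. Almost surely every sufficiently
large integer is a sum of four cubes of positive integers and one perturbed cube (of a positive integer):
five terms, four of them exact. For any `δ > 0`, one perturbed cube and `t` exact ones suffice if
`(2/3) ^ t < δ` and `t ≥ 3`. Three terms, exact or perturbed, never suffice.
-/

open MeasureTheory ProbabilityTheory Filter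

namespace Pool.Agent.Results.MP_3e5b54_nt.FourCubesAndOnePerturbed

/-- **Main result.** -/
theorem result {Ω : Type*} [MeasurableSpace Ω] (P : Measure Ω) [IsProbabilityMeasure P]
    (δ : ℝ) (hδ0 : 0 < δ) (hδ1 : δ ≤ 2 / 3) (κ : ℝ) (hκ : 0 < κ)
    (ξ : ℕ → Ω → ℕ) (hm : ∀ n, Measurable (ξ n)) (hind : iIndepFun ξ P)
    (hdens : ∀ n j : ℕ, 1 ≤ n → (j : ℝ) ≤ (n : ℝ) ^ (3 * δ) →
      κ / (n : ℝ) ^ (3 * δ) ≤ P.real {ω | ξ n ω = j}) :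
    ∀ᵐ ω ∂P,
      (16 / 81 < δ → ∃ N₀ : ℕ, ∀ m : ℕ, N₀ ≤ m → ∃ a b c d e : ℕ,
        1 ≤ a ∧ 1 ≤ b ∧ 1 ≤ c ∧ 1 ≤ d ∧ 1 ≤ e ∧
        m = a ^ 3 + b ^ 3 + c ^ 3 + d ^ 3 + (e ^ 3 + ξ e ω)) ∧
      (∀ t : ℕ, 3 ≤ t → (2 / 3 : ℝ) ^ t < δ → ∃ N₀ : ℕ, ∀ m : ℕ, N₀ ≤ m →
        ∃ (a : Fin t → ℕ) (e : ℕ), (∀ i, 1 ≤ a i) ∧ 1 ≤ e ∧
          m = ∑ i, (a i) ^ 3 + (e ^ 3 + ξ e ω)) ∧
      (∀ t q : ℕ, t + q ≤ 3 → ∀ N₀ : ℕ, ∃ m : ℕ, N₀ ≤ m ∧ ¬ ∃ (a : Fin t → ℕ) (b : Fin q → ℕ),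
          m = ∑ i, (a i) ^ 3 + ∑ i, ((b i) ^ 3 + ξ (b i) ω)) := by
  have hd : ∀ n j : ℕ, 1 ≤ n → (j : ℝ) ≤ (n : ℝ) ^ (δ * (3 : ℕ)) →
      κ / (n : ℝ) ^ (δ * (3 : ℕ)) ≤ P.real {ω | ξ n ω = j} := by
    intro n j hn hj
    have h : δ * ((3 : ℕ) : ℝ) = 3 * δ := by push_cast; ring
    rw [h] at hj ⊢
    exact hdens n j hn hj
  filter_upwards [Run7.h332.WP.positive 3 (by norm_num) δ hδ0 (by norm_num; linarith)
    κ hκ ξ hm hind hd] with ω hω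
  have h23 : (1 - 1 / ((3 : ℕ) : ℝ)) = 2 / 3 := by norm_num
  rw [h23] at hω
  refine ⟨fun hδ => ?_, fun t ht hδ => ?_, fun t q htq N₀ => ?_⟩
  · obtain ⟨N₀, h⟩ := hω 4 1 (by norm_num; linarith) (by norm_num)
    refine ⟨N₀, fun m hmN => ?_⟩
    obtain ⟨a, b, ha, hb, hab⟩ := h m hmN
    refine ⟨a 0, a 1, a 2, a 3, b 0, ha 0, ha 1, ha 2, ha 3, hb 0, ?_⟩
    rw [hab, Fin.sum_univ_four, Fin.sum_univ_one]
  · have h3 : (3 : ℝ) * (2 / 3 : ℝ) ^ t ≤ 3 * (2 / 3 : ℝ) ^ 3 :=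
      mul_le_mul_of_nonneg_left (pow_le_pow_of_le_one (by norm_num) (by norm_num) ht) (by norm_num)
    have h4 : (3 : ℝ) * (2 / 3 : ℝ) ^ 3 < 1 := by norm_num
    obtain ⟨N₀, h⟩ := hω t 1 hδ (by push_cast; linarith)
    refine ⟨N₀, fun m hmN => ?_⟩
    obtain ⟨a, b, ha, hb, hab⟩ := h m hmN
    refine ⟨a, b 0, ha, hb 0, ?_⟩
    rw [hab, Fin.sum_univ_one]
  · by_contra hcon
    push Not at hcon
    have := Run7.h332.WP.lower 3 le_rfl (fun n => ξ n ω) t q N₀ hcon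
    omega

end Pool.Agent.Results.MP_3e5b54_nt.FourCubesAndOnePerturbed
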